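import Mathlib

/-! Almost every real number `x`: the integers `⌊c_n x ^ d_n⌋` meet a given set of positive density infinitely
often, however fast `c_n x ^ d_n` grows. -/

set_option autoImplicit false

namespace Q239.CS

open MeasureTheory Filter Topology Metric

/-- number of elements of `K` in `[1, N]` -/
noncomputable def cnt (K : Set ℕ) (N : ℕ) : ℕ := {n : ℕ | 1 ≤ n ∧ n ≤ N ∧ n ∈ K}.ncard

/-- natural density -/
def Dn (K : Set ℕ) (δ : ℝ) : Prop := Tendsto (fun N : ℕ => (cnt K N : ℝ) / N) atTop (𝓝 δ)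

theorem cnt_finite (K : Set ℕ) (N : ℕ) : {n : ℕ | 1 ≤ n ∧ n ≤ N ∧ n ∈ K}.Finite :=
  (Set.finite_Iic N).subset fun _ h => h.2.1

open scoped Classical in
theorem cnt_eq (K : Set ℕ) (N : ℕ) : cnt K N = ((Finset.Icc 1 N).filter fun n => n ∈ K).card := by
  unfold cnt
  rw [← Set.ncard_coe_finset]
  congr 1
  ext n
  simp only [Set.mem_ofPred_eq, Finset.coe_filter, Finset.mem_Icc]
  tauto

theorem one_add_rpow_ge {p k : ℝ} (hp0 : 0 < p) (hp1 : p ≤ 1) (hk : 0 < k) :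
    1 + p / (k + 1) ≤ (1 + 1 / k) ^ p := by
  have h1 : (1 + -(1 / (k + 1))) ^ p ≤ 1 + p * (-(1 / (k + 1))) := by
    apply rpow_one_add_le_one_add_mul_self _ hp0.le hp1
    have : 1 / (k + 1) ≤ 1 := by
      rw [div_le_one (by linarith)]
      linarith
    linarith
  have h2 : (1 + 1 / k : ℝ) = (1 + -(1 / (k + 1)))⁻¹ := by
    have hk' : k ≠ 0 := hk.ne'
    have hk1 : k + 1 ≠ 0 := by positivity
    have e : 1 + -(1 / (k + 1)) = k / (k + 1) := by
      field_simp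
      ring
    rw [e, inv_div, add_div, div_self hk']
  have h3 : 0 < 1 + -(1 / (k + 1)) := by
    have : 1 / (k + 1) < 1 := by
      rw [div_lt_one (by linarith)]
      linarith
    linarith
  rw [h2, Real.inv_rpow h3.le]
  have h4 : 0 < (1 + -(1 / (k + 1))) ^ p := Real.rpow_pos_of_pos h3 p
  have h5 : 1 + p / (k + 1) ≤ (1 + p * (-(1 / (k + 1))))⁻¹ := by
    have h6 : 0 < 1 + p * (-(1 / (k + 1))) := lt_of_lt_of_le h4 h1
    rw [le_inv_comm₀ (by positivity) h6, inv_eq_one_div, le_div_iff₀ (by positivity)]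
    have h7 : p / (k + 1) = p * (1 / (k + 1)) := by ring
    rw [h7]
    nlinarith [sq_nonneg (p * (1 / (k + 1)))]
  exact h5.trans (inv_anti₀ h4 h1)

/-- the elements of `K` in a long interval -/
theorem many {K : Set ℕ} {δ : ℝ} (hK : Dn K δ) (hδ : 0 < δ) {ε : ℝ} (hε : 0 < ε) (hε1 : ε ≤ 1) :
    ∃ X₀ : ℝ, 1 ≤ X₀ ∧ ∀ X : ℝ, X₀ ≤ X → ∃ F : Finset ℕ, (∀ k ∈ F, k ∈ K ∧ X ≤ k ∧ (k : ℝ) + 1 ≤ (1 + ε) * X) ∧
      δ / 2 * (ε * X) ≤ F.card := by
  classical
  obtain ⟨η, hη0, hη⟩ : ∃ η : ℝ, 0 < η ∧ η * 8 ≤ δ * ε ∧ η ≤ 1 := by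
    refine ⟨min (δ * ε / 8) 1, lt_min (by positivity) one_pos, ?_, min_le_right _ _⟩
    have := min_le_left (δ * ε / 8) 1
    linarith
  have h1 : ∀ᶠ N : ℕ in atTop, |(cnt K N : ℝ) / N - δ| < η := by
    have := (Metric.tendsto_nhds.1 hK) η hη0
    simpa [Real.dist_eq] using this
  obtain ⟨N₀, hN₀⟩ := eventually_atTop.1 h1
  have hδ1 : δ ≤ 1 + 1 := by
    obtain ⟨N, hN⟩ : ∃ N : ℕ, N₀ ≤ N ∧ 1 ≤ N := ⟨N₀ + 1, by omega, by omega⟩
    have h2 := hN₀ N hN.1
    have h3 : (cnt K N : ℝ) / N ≤ 1 := by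
      rw [div_le_one (by exact_mod_cast hN.2)]
      have : cnt K N ≤ N := by
        rw [cnt_eq]
        exact (Finset.card_filter_le _ _).trans (by simp)
      exact_mod_cast this
    have := (abs_lt.1 h2).1
    linarith [hη.2]
  refine ⟨max (N₀ + 1 : ℝ) (max 1 (16 * (1 + δ) / (δ * ε))), le_max_of_le_right (le_max_left _ _), fun X hX => ?_⟩
  have hX1 : (N₀ : ℝ) + 1 ≤ X := (le_max_left _ _).trans hX
  have hX2 : 1 ≤ X := ((le_max_left _ _).trans (le_max_right _ _)).trans hX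
  have hX3 : 16 * (1 + δ) / (δ * ε) ≤ X := ((le_max_right _ _).trans (le_max_right _ _)).trans hX
  have hX0 : 0 < X := by linarith
  set a : ℕ := ⌈X⌉₊ - 1 with ha
  set b : ℕ := ⌊(1 + ε) * X⌋₊ - 1 with hb
  have hceil : X ≤ (⌈X⌉₊ : ℝ) := Nat.le_ceil X
  have hceil' : (⌈X⌉₊ : ℝ) < X + 1 := Nat.ceil_lt_add_one hX0.le
  have hc1 : 1 ≤ ⌈X⌉₊ := Nat.one_le_ceil_iff.2 hX0
  have haR : (a : ℝ) = ⌈X⌉₊ - 1 := by
    rw [ha, Nat.cast_sub hc1]
    simp
  have hfl : (⌊(1 + ε) * X⌋₊ : ℝ) ≤ (1 + ε) * X := Nat.floor_le (by positivity)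
  have hfl' : (1 + ε) * X < (⌊(1 + ε) * X⌋₊ : ℝ) + 1 := Nat.lt_floor_add_one _
  have hf1 : 1 ≤ ⌊(1 + ε) * X⌋₊ := by
    rw [Nat.one_le_floor_iff]
    nlinarith
  have hbR : (b : ℝ) = ⌊(1 + ε) * X⌋₊ - 1 := by
    rw [hb, Nat.cast_sub hf1]
    simp
  have ha0 : N₀ ≤ a := by
    have : (N₀ : ℝ) ≤ a := by rw [haR]; linarith
    exact_mod_cast this
  have hεX : 16 * (1 + δ) ≤ δ * ε * X := by
    rw [div_le_iff₀ (by positivity)] at hX3
    linarith
  have hab : (a : ℝ) ≤ b := by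
    rw [haR, hbR]
    nlinarith
  have hab' : a ≤ b := by exact_mod_cast hab
  have hb0 : N₀ ≤ b := ha0.trans hab'
  have ca := hN₀ a ha0
  have cb := hN₀ b hb0
  have hcb : (δ - η) * b ≤ cnt K b := by
    rcases Nat.eq_zero_or_pos b with h | h
    · rw [h]; simp
    · have hbp : (0 : ℝ) < b := by exact_mod_cast h
      have := (abs_lt.1 cb).1
      have h2 : δ - η < (cnt K b : ℝ) / b := by linarith
      rw [lt_div_iff₀ hbp] at h2
      exact h2.le
  have hca : (cnt K a : ℝ) ≤ (δ + η) * a := by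
    rcases Nat.eq_zero_or_pos a with h | h
    · rw [h, cnt_eq]; simp
    · have hap : (0 : ℝ) < a := by exact_mod_cast h
      have := (abs_lt.1 ca).2
      have h2 : (cnt K a : ℝ) / a < δ + η := by linarith
      rw [div_lt_iff₀ hap] at h2
      exact h2.le
  refine ⟨(Finset.Ioc a b).filter fun n => n ∈ K, ?_, ?_⟩
  · intro k hk
    rw [Finset.mem_filter, Finset.mem_Ioc] at hk
    refine ⟨hk.2, ?_, ?_⟩
    · have : (a : ℝ) + 1 ≤ k := by exact_mod_cast hk.1.1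
      linarith
    · have : (k : ℝ) ≤ b := by exact_mod_cast hk.1.2
      linarith
  · have hsplit : cnt K b ≤ cnt K a + ((Finset.Ioc a b).filter fun n => n ∈ K).card := by
      rw [cnt_eq, cnt_eq, ← Finset.card_union_of_disjoint]
      · apply Finset.card_le_card
        intro n hn
        rw [Finset.mem_filter, Finset.mem_Icc] at hn
        rw [Finset.mem_union, Finset.mem_filter, Finset.mem_filter, Finset.mem_Icc, Finset.mem_Ioc]
        by_cases h : n ≤ a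
        · exact Or.inl ⟨⟨hn.1.1, h⟩, hn.2⟩
        · exact Or.inr ⟨⟨by omega, hn.1.2⟩, hn.2⟩
      · rw [Finset.disjoint_left]
        intro n h1 h2
        rw [Finset.mem_filter, Finset.mem_Icc] at h1
        rw [Finset.mem_filter, Finset.mem_Ioc] at h2
        omega
    have hs : (cnt K b : ℝ) ≤ cnt K a + ((Finset.Ioc a b).filter fun n => n ∈ K).card := by exact_mod_cast hsplit
    have e1 : (δ - η) * b - (δ + η) * a ≥ δ / 2 * (ε * X) := by
      have e2 : (δ - η) * b - (δ + η) * a = δ * (b - a) - η * (b + a) := by ring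
      have e3 : ε * X - 2 ≤ b - a := by rw [haR, hbR]; linarith
      have e4 : (b : ℝ) + a ≤ 3 * X := by rw [haR, hbR]; nlinarith
      rw [e2]
      have e5 : η * (b + a) ≤ 3 * η * X := by nlinarith
      have e6 : 3 * η * X ≤ 3 / 8 * (δ * ε) * X := by nlinarith [hη.1]
      have e7 : δ * (ε * X - 2) ≤ δ * (b - a) := by nlinarith
      nlinarith
    linarith

end Q239.CS
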