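import Pool.Agent.Q239.CS.Leb

set_option autoImplicit false

namespace Q239.CS

open MeasureTheory Filter Topology Metric

/-- A set `G` of numbers `y` to the right of `x` with `⌊c y ^ d⌋ ∈ K`: a quarter of `δ` of the interval. -/
theorem block {K : Set ℕ} {δ ε X₀ : ℝ} (hδ : 0 < δ) (hε : 0 < ε) (hε1 : ε ≤ 1) (hX₀ : 1 ≤ X₀)
    (hmany : ∀ X : ℝ, X₀ ≤ X → ∃ F : Finset ℕ, (∀ k ∈ F, k ∈ K ∧ X ≤ k ∧ (k : ℝ) + 1 ≤ (1 + ε) * X) ∧
      δ / 2 * (ε * X) ≤ F.card)
    {c d x : ℝ} (hc : 0 < c) (hd : 1 ≤ d) (hx : 0 < x) (hbig : X₀ ≤ c * x ^ d) :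
    ∃ (r : ℝ) (G : Set ℝ), 0 < r ∧ r ≤ x * ε ∧ MeasurableSet G ∧ G ⊆ Set.Icc x (x + r) ∧
      (∀ y ∈ G, ⌊c * y ^ d⌋₊ ∈ K) ∧ ENNReal.ofReal (δ / 4 * r) ≤ volume G := by
  set p : ℝ := 1 / d with hp
  have hd0 : 0 < d := by linarith
  have hp0 : 0 < p := by positivity
  have hp1 : p ≤ 1 := by
    rw [hp, div_le_one hd0]
    exact hd
  have hpd : p * d = 1 := by
    rw [hp]
    field_simp
  set X : ℝ := c * x ^ d with hX
  have hX1 : 1 ≤ X := hX₀.trans hbig
  have hX0 : 0 < X := by linarith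
  -- the inverse function
  set g : ℝ → ℝ := fun t => (t / c) ^ p with hg
  have hgmono : ∀ s t : ℝ, 0 ≤ s → s ≤ t → g s ≤ g t := by
    intro s t hs hst
    exact Real.rpow_le_rpow (by positivity) (div_le_div_of_nonneg_right hst hc.le) hp0.le
  have hgX : g X = x := by
    rw [hg, hX]
    simp only
    rw [mul_div_cancel_left₀ _ hc.ne', ← Real.rpow_mul hx.le, mul_comm d p, hpd, Real.rpow_one]
  have hgmul : ∀ s t : ℝ, 0 ≤ s → 0 ≤ t → g (s * t) = s ^ p * g t := by
    intro s t hs ht
    simp only [hg]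
    rw [mul_div_assoc, Real.mul_rpow hs (by positivity)]
  have hfg : ∀ t y : ℝ, 0 ≤ t → 0 ≤ y → (g t ≤ y ↔ t ≤ c * y ^ d) := by
    intro t y ht hy
    constructor
    · intro h
      have h1 : g t ^ d ≤ y ^ d := Real.rpow_le_rpow (Real.rpow_nonneg (by positivity) _) h hd0.le
      have h2 : g t ^ d = t / c := by
        simp only [hg]
        rw [← Real.rpow_mul (by positivity), hpd, Real.rpow_one]
      rw [h2, div_le_iff₀ hc] at h1
      linarith
    · intro h
      have h1 : t / c ≤ y ^ d := by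
        rw [div_le_iff₀ hc]
        linarith
      have h2 : (t / c) ^ p ≤ (y ^ d) ^ p := Real.rpow_le_rpow (by positivity) h1 hp0.le
      rw [← Real.rpow_mul hy, mul_comm d p, hpd, Real.rpow_one] at h2
      exact h2
  set M : ℝ := (1 + ε) * X with hM
  have hgM : g M = (1 + ε) ^ p * x := by
    rw [hM, hgmul _ _ (by positivity) hX0.le, hgX]
  set r : ℝ := g M - x with hr
  have hr_le : r ≤ x * (p * ε) := by
    rw [hr, hgM]
    have := rpow_one_add_le_one_add_mul_self (show -1 ≤ ε by linarith) hp0.le hp1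
    nlinarith
  have hr0 : 0 < r := by
    rw [hr, hgM]
    have : 1 < (1 + ε) ^ p := Real.one_lt_rpow (by linarith) hp0
    nlinarith
  obtain ⟨F, hF, hFc⟩ := hmany X hbig
  refine ⟨r, ⋃ k ∈ F, Set.Ico (g k) (g (k + 1)), hr0, ?_, ?_, ?_, ?_, ?_⟩
  · calc r ≤ x * (p * ε) := hr_le
      _ ≤ x * (1 * ε) := by gcongr
      _ = x * ε := by ring
  · exact Finset.measurableSet_biUnion F fun k _ => measurableSet_Ico
  · intro y hy
    simp only [Set.mem_iUnion, Set.mem_Ico] at hy
    obtain ⟨k, hk, h1, h2⟩ := hy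
    obtain ⟨_, hk2, hk3⟩ := hF k hk
    have h3 : x ≤ g k := by
      rw [← hgX]
      exact hgmono X k hX0.le hk2
    have h4 : g ((k : ℝ) + 1) ≤ g M := hgmono _ _ (by positivity) hk3
    constructor
    · linarith
    · rw [hr]
      linarith
  · intro y hy
    simp only [Set.mem_iUnion, Set.mem_Ico] at hy
    obtain ⟨k, hk, h1, h2⟩ := hy
    obtain ⟨hkK, hk2, hk3⟩ := hF k hk
    have h3 : x ≤ g k := by
      rw [← hgX]
      exact hgmono X k hX0.le hk2
    have hy0 : 0 ≤ y := by linarith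
    have h4 : (k : ℝ) ≤ c * y ^ d := (hfg k y (by positivity) hy0).1 h1
    have h5 : c * y ^ d < k + 1 := by
      by_contra hcon
      push Not at hcon
      have := (hfg (k + 1) y (by positivity) hy0).2 hcon
      linarith
    have : ⌊c * y ^ d⌋₊ = k := by
      rw [Nat.floor_eq_iff (by positivity)]
      exact ⟨h4, h5⟩
    rw [this]
    exact hkK
  · rw [measure_biUnion_finset]
    · simp only [Real.volume_Ico]
      rw [← ENNReal.ofReal_sum_of_nonneg]
      · apply ENNReal.ofReal_le_ofReal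
        have hterm : ∀ k ∈ F, x * p / ((1 + ε) * X) ≤ g ((k : ℝ) + 1) - g k := by
          intro k hk
          obtain ⟨hkK, hk2, hk3⟩ := hF k hk
          have hk0 : (0 : ℝ) < k := by linarith
          have e1 : (k : ℝ) + 1 = (1 + 1 / k) * k := by
            field_simp
          have e2 : g ((k : ℝ) + 1) = (1 + 1 / k) ^ p * g k := by
            rw [e1, hgmul _ _ (by positivity) hk0.le]
          have h3 : x ≤ g k := by
            rw [← hgX]
            exact hgmono X k hX0.le hk2
          have h4 := one_add_rpow_ge hp0 hp1 hk0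
          rw [e2]
          have h5 : p / ((1 + ε) * X) ≤ p / (k + 1) := by
            apply div_le_div_of_nonneg_left hp0.le (by positivity) hk3
          have h6 : 0 ≤ p / ((1 + ε) * X) := by positivity
          calc x * p / ((1 + ε) * X) = x * (p / ((1 + ε) * X)) := by ring
            _ ≤ g k * (p / (k + 1)) := by gcongr
            _ ≤ g k * ((1 + 1 / k) ^ p - 1) := by
                apply mul_le_mul_of_nonneg_left _ (by linarith)
                linarith
            _ = (1 + 1 / k) ^ p * g k - g k := by ring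
        calc δ / 4 * r ≤ δ / 4 * (x * (p * ε)) := by gcongr
          _ ≤ (δ / 2 * (ε * X)) * (x * p / ((1 + ε) * X)) := by
              have e : (δ / 2 * (ε * X)) * (x * p / ((1 + ε) * X)) = δ / (2 * (1 + ε)) * (x * (p * ε)) := by
                field_simp
              rw [e]
              apply mul_le_mul_of_nonneg_right _ (by positivity)
              apply div_le_div_of_nonneg_left hδ.le (by positivity)
              linarith
          _ ≤ F.card * (x * p / ((1 + ε) * X)) := by gcongr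
          _ = ∑ _k ∈ F, x * p / ((1 + ε) * X) := by rw [Finset.sum_const, nsmul_eq_mul]
          _ ≤ ∑ k ∈ F, (g ((k : ℝ) + 1) - g k) := Finset.sum_le_sum hterm
      · intro k _
        have := hgmono k (k + 1) (by positivity) (by linarith)
        linarith
    · intro k _ l _ hkl
      rw [Function.onFun, Set.disjoint_left]
      rintro y ⟨h1, h2⟩ ⟨h3, h4⟩
      rcases lt_or_gt_of_ne hkl with h | h
      · have : g ((k : ℝ) + 1) ≤ g l := hgmono _ _ (by positivity) (by exact_mod_cast h)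
        linarith
      · have : g ((l : ℝ) + 1) ≤ g k := hgmono _ _ (by positivity) (by exact_mod_cast h)
        linarith
    · exact fun k _ => measurableSet_Ico

/-- **Almost every `x`.** Let `K` have positive natural density and let `c_n x ^ d_n → ∞` for `x > A`, `d_n ≥ 1`. Then
for almost every `x > A` infinitely many of the numbers `⌊c_n x ^ d_n⌋` belong to `K`. -/
theorem ae_frequently {K : Set ℕ} {δ : ℝ} (hK : Dn K δ) (hδ : 0 < δ) {A : ℝ} (hA : 0 ≤ A) (c d : ℕ → ℝ)
    (hc : ∀ n, 0 < c n) (hd : ∀ n, 1 ≤ d n) (hT : ∀ x : ℝ, A < x → Tendsto (fun n => c n * x ^ d n) atTop atTop) :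
    ∀ᵐ x : ℝ, A < x → ∃ᶠ n in atTop, ⌊c n * x ^ d n⌋₊ ∈ K := by
  have key : ∀ N : ℕ, volume {x : ℝ | A < x ∧ ∀ n, N ≤ n → ⌊c n * x ^ d n⌋₊ ∉ K} = 0 := by
    intro N
    set s : Set ℝ := {x : ℝ | A < x ∧ ∀ n, N ≤ n → ⌊c n * x ^ d n⌋₊ ∉ K} with hs
    by_contra hne
    have hdens := Besicovitch.ae_tendsto_measure_inter_div (volume : Measure ℝ) s
    have hne' : (volume.restrict s) ≠ 0 := by
      intro h
      rw [Measure.restrict_eq_zero] at h
      exact hne h
    haveI : (ae (volume.restrict s)).NeBot := ae_neBot.2 hne'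
    have hmem : ∀ᵐ x ∂(volume.restrict s), x ∈ s := by
      have hmeas : MeasurableSet s := by
        have h1 : ∀ n, MeasurableSet {x : ℝ | ⌊c n * x ^ d n⌋₊ ∉ K} := by
          intro n
          have hf : Measurable fun x : ℝ => ⌊c n * x ^ d n⌋₊ := by
            apply Nat.measurable_floor.comp
            exact measurable_const.mul (measurable_id.pow_const _)
          exact hf (MeasurableSet.of_discrete : MeasurableSet Kᶜ)
        have h2 : s = Set.Ioi A ∩ ⋂ n, ⋂ (_ : N ≤ n), {x : ℝ | ⌊c n * x ^ d n⌋₊ ∉ K} := by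
          ext x
          simp [hs]
        rw [h2]
        exact measurableSet_Ioi.inter (MeasurableSet.iInter fun n => MeasurableSet.iInter fun _ => h1 n)
      exact ae_restrict_mem hmeas
    obtain ⟨x, hx1, hx2⟩ := (hdens.and hmem).exists
    have hxA : A < x := hx2.1
    have hx0 : 0 < x := lt_of_le_of_lt hA hxA
    -- density is below one
    have hlt : ENNReal.ofReal (1 - min δ 1 / 16) < 1 := by
      rw [ENNReal.ofReal_lt_one]
      have : 0 < min δ 1 := lt_min hδ one_pos
      linarith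
    have hev := hx1.eventually (lt_mem_nhds hlt)
    rw [eventually_nhdsWithin_iff] at hev
    obtain ⟨r₀, hr₀, hball⟩ := Metric.eventually_nhds_iff.1 hev
    obtain ⟨ε, hε0, hε1, hεr⟩ : ∃ ε : ℝ, 0 < ε ∧ ε ≤ 1 ∧ x * ε < r₀ := by
      refine ⟨min 1 (r₀ / (2 * x)), lt_min one_pos (by positivity), min_le_left _ _, ?_⟩
      calc x * min 1 (r₀ / (2 * x)) ≤ x * (r₀ / (2 * x)) := by
            apply mul_le_mul_of_nonneg_left (min_le_right _ _) hx0.le
        _ = r₀ / 2 := by field_simp
        _ < r₀ := by linarith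
    obtain ⟨X₀, hX₀1, hmany⟩ := many hK hδ hε0 hε1
    obtain ⟨n, hnN, hnX⟩ := (((eventually_ge_atTop N).and ((hT x hxA).eventually_ge_atTop X₀))).exists
    obtain ⟨r, G, hr0, hrε, hGm, hGsub, hGK, hGvol⟩ := block hδ hε0 hε1 hX₀1 hmany (hc n) (hd n) hx0 hnX
    have hrr : r < r₀ := lt_of_le_of_lt hrε hεr
    have hb := hball (show dist r 0 < r₀ by rw [Real.dist_eq, sub_zero, abs_of_pos hr0]; exact hrr) hr0
    have hvb : volume (closedBall x r) = ENNReal.ofReal (2 * r) := Real.volume_closedBall x r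
    have h2r : (0 : ℝ) < 2 * r := by linarith
    rw [hvb, ENNReal.lt_div_iff_mul_lt (Or.inl (by simpa using h2r)) (Or.inl ENNReal.ofReal_ne_top)] at hb
    have hdisj : Disjoint (s ∩ closedBall x r) G := by
      rw [Set.disjoint_left]
      rintro y ⟨hy1, _⟩ hy2
      exact hy1.2 n hnN (hGK y hy2)
    have hsub : (s ∩ closedBall x r) ∪ G ⊆ closedBall x r := by
      rintro y (hy | hy)
      · exact hy.2
      · have := hGsub hy
        rw [Real.closedBall_eq_Icc]
        exact ⟨by linarith [this.1], this.2⟩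
    have hle := measure_mono (μ := (volume : Measure ℝ)) hsub
    rw [measure_union hdisj hGm, hvb] at hle
    have hfin : ENNReal.ofReal (1 - min δ 1 / 16) * ENNReal.ofReal (2 * r) + ENNReal.ofReal (δ / 4 * r)
        ≤ ENNReal.ofReal (2 * r) := le_trans (add_le_add hb.le hGvol) hle
    have hm : 0 < min δ 1 := lt_min hδ one_pos
    have hm1 : min δ 1 ≤ 1 := min_le_right _ _
    rw [← ENNReal.ofReal_mul (by linarith), ← ENNReal.ofReal_add (by nlinarith) (by positivity),
      ENNReal.ofReal_le_ofReal_iff h2r.le] at hfin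
    have hmδ : min δ 1 ≤ δ := min_le_left _ _
    nlinarith
  have hall : ∀ᵐ x : ℝ, ∀ N : ℕ, x ∉ {x : ℝ | A < x ∧ ∀ n, N ≤ n → ⌊c n * x ^ d n⌋₊ ∉ K} := by
    rw [ae_all_iff]
    intro N
    exact measure_eq_zero_iff_ae_notMem.1 (key N)
  filter_upwards [hall] with x hx hxA
  rw [frequently_atTop]
  intro N
  by_contra hcon
  push Not at hcon
  exact hx N ⟨hxA, fun n hn => hcon n hn⟩

end Q239.CS
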