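import Mathlib

/-! A strong law of large numbers for independent bounded variables with divergent sum of means, and Abel summation
against a set with natural density. -/

set_option autoImplicit false

namespace Q239.CS

open MeasureTheory Filter Topology ProbabilityTheory

variable {Ω : Type*} [MeasurableSpace Ω] {μ : Measure Ω}

/-- deterministic interpolation -/
theorem interp {T B : ℕ → ℝ} (hT : Monotone T) (hBm : Monotone B) (hB : Tendsto B atTop atTop)
    (Nk : ℕ → ℕ) (h1 : ∀ k : ℕ, (k : ℝ) ^ 2 ≤ B (Nk k)) (h2 : ∀ k : ℕ, B (Nk k) ≤ (k : ℝ) ^ 2 + 1)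
    (h3 : ∀ k N : ℕ, (k : ℝ) ^ 2 ≤ B N → Nk k ≤ N)
    (h4 : Tendsto (fun k => T (Nk k) / B (Nk k)) atTop (𝓝 1)) : Tendsto (fun N => T N / B N) atTop (𝓝 1) := by
  rw [Metric.tendsto_atTop]
  intro ε' hε'
  obtain ⟨ε, hε0, hε1, hε⟩ : ∃ ε : ℝ, 0 < ε ∧ ε ≤ 1 ∧ 4 * ε < ε' :=
    ⟨min 1 (ε' / 5), lt_min one_pos (by positivity), min_le_left _ _, by
      have := min_le_right 1 (ε' / 5)
      linarith⟩
  obtain ⟨k₁, hk₁⟩ := (Metric.tendsto_atTop.1 h4) ε hε0
  obtain ⟨k₂, hk₂⟩ := exists_nat_gt (4 / ε)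
  set k₀ := max k₁ (max k₂ 1) with hk₀
  obtain ⟨N₀, hN₀⟩ := eventually_atTop.1 (hB.eventually_ge_atTop ((k₀ : ℝ) ^ 2))
  refine ⟨N₀, fun N hN => ?_⟩
  have hBN := hN₀ N hN
  have hBN0 : 0 ≤ B N := le_trans (by positivity) hBN
  set k : ℕ := ⌊Real.sqrt (B N)⌋₊ with hk
  have hk0 : k₀ ≤ k := by
    apply Nat.le_floor
    rw [← Real.sqrt_sq (Nat.cast_nonneg k₀)]
    exact Real.sqrt_le_sqrt hBN
  have hkB : (k : ℝ) ^ 2 ≤ B N := by
    have : (k : ℝ) ≤ Real.sqrt (B N) := Nat.floor_le (Real.sqrt_nonneg _)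
    calc (k : ℝ) ^ 2 ≤ Real.sqrt (B N) ^ 2 := by gcongr
      _ = B N := Real.sq_sqrt hBN0
  have hkB' : B N < ((k + 1 : ℕ) : ℝ) ^ 2 := by
    have : Real.sqrt (B N) < (k : ℝ) + 1 := Nat.lt_floor_add_one _
    calc B N = Real.sqrt (B N) ^ 2 := (Real.sq_sqrt hBN0).symm
      _ < ((k : ℝ) + 1) ^ 2 := by gcongr
      _ = _ := by push_cast; ring
  have hNk : Nk k ≤ N := h3 k N hkB
  have hNk' : N ≤ Nk (k + 1) := by
    by_contra hcon
    push Not at hcon
    have e1 := h1 (k + 1)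
    have e2 := hBm hcon.le
    linarith
  have hk1R : (1 : ℝ) ≤ k := by
    have : 1 ≤ k := le_trans (le_trans (le_max_right _ _) (le_max_right _ _)) hk0
    exact_mod_cast this
  have hk2R : 4 / ε < k := by
    have : k₂ ≤ k := le_trans (le_trans (le_max_left _ _) (le_max_right _ _)) hk0
    exact lt_of_lt_of_le hk₂ (by exact_mod_cast this)
  rw [div_lt_iff₀ hε0] at hk2R
  have hcl := hk₁ k ((le_max_left _ _).trans hk0)
  have hcu := hk₁ (k + 1) ((le_max_left _ _).trans (hk0.trans (Nat.le_succ k)))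
  rw [Real.dist_eq, abs_lt] at hcl hcu
  have hBl := h1 k
  have hBu := h2 (k + 1)
  have hBk : 0 < B (Nk k) := by nlinarith
  have hBk1 : 0 < B (Nk (k + 1)) := by
    have := h1 (k + 1)
    push_cast at this
    nlinarith
  have hlow : (1 - ε) * B (Nk k) ≤ T (Nk k) := by
    have : 1 - ε < T (Nk k) / B (Nk k) := by linarith [hcl.1]
    rw [lt_div_iff₀ hBk] at this
    exact this.le
  have hup : T (Nk (k + 1)) ≤ (1 + ε) * B (Nk (k + 1)) := by
    have : T (Nk (k + 1)) / B (Nk (k + 1)) < 1 + ε := by linarith [hcu.2]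
    rw [div_lt_iff₀ hBk1] at this
    exact this.le
  have hT1 := hT hNk
  have hT2 := hT hNk'
  have hBNp : 0 < B N := by nlinarith
  have hsq : ((k + 1 : ℕ) : ℝ) ^ 2 + 1 ≤ (1 + ε) * (k : ℝ) ^ 2 := by
    push_cast
    nlinarith
  have hup2 : T N ≤ (1 + ε) * ((1 + ε) * B N) := by
    calc T N ≤ (1 + ε) * B (Nk (k + 1)) := hT2.trans hup
      _ ≤ (1 + ε) * ((1 + ε) * B N) := by
          apply mul_le_mul_of_nonneg_left _ (by linarith)
          calc B (Nk (k + 1)) ≤ ((k + 1 : ℕ) : ℝ) ^ 2 + 1 := hBu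
            _ ≤ (1 + ε) * (k : ℝ) ^ 2 := hsq
            _ ≤ (1 + ε) * B N := by gcongr
  have hlow2 : (1 - ε) * (1 - ε) * B N ≤ T N := by
    have e1 : (1 - ε) * B N ≤ (k : ℝ) ^ 2 := by
      have e2 : B N ≤ (1 + ε) * (k : ℝ) ^ 2 := by linarith
      nlinarith [mul_nonneg (sub_nonneg.2 hε1) (sub_nonneg.2 e2), sq_nonneg ((k : ℝ)), sq_nonneg (ε * k)]
    calc (1 - ε) * (1 - ε) * B N = (1 - ε) * ((1 - ε) * B N) := by ring
      _ ≤ (1 - ε) * B (Nk k) := by
          apply mul_le_mul_of_nonneg_left _ (by linarith)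
          linarith
      _ ≤ T (Nk k) := hlow
      _ ≤ T N := hT1
  rw [Real.dist_eq, abs_lt]
  constructor
  · have : 1 - 4 * ε < T N / B N := by
      rw [lt_div_iff₀ hBNp]
      nlinarith
    linarith
  · have : T N / B N < 1 + 4 * ε := by
      rw [div_lt_iff₀ hBNp]
      nlinarith
    linarith

/-- **Strong law.** Pairwise independent variables with values in `[0, 1]` and divergent sum of the means. -/
theorem slln [IsProbabilityMeasure μ] {Y : ℕ → Ω → ℝ} (hm : ∀ i, Measurable (Y i)) (h0 : ∀ i ω, 0 ≤ Y i ω)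
    (h1 : ∀ i ω, Y i ω ≤ 1) (hind : Pairwise fun i j => IndepFun (Y i) (Y j) μ)
    (hB : Tendsto (fun N => ∑ i ∈ Finset.range N, ∫ ω, Y i ω ∂μ) atTop atTop) :
    ∀ᵐ ω ∂μ, Tendsto (fun N => (∑ i ∈ Finset.range N, Y i ω) / ∑ i ∈ Finset.range N, ∫ ω, Y i ω ∂μ) atTop (𝓝 1) := by
  classical
  set b : ℕ → ℝ := fun i => ∫ ω, Y i ω ∂μ with hb
  set B : ℕ → ℝ := fun N => ∑ i ∈ Finset.range N, b i with hBdef
  have hint : ∀ i, Integrable (Y i) μ := fun i => by
    refine Integrable.of_bound (hm i).aestronglyMeasurable 1 (ae_of_all _ fun ω => ?_)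
    rw [Real.norm_eq_abs, abs_of_nonneg (h0 i ω)]
    exact h1 i ω
  have hL2 : ∀ i, MemLp (Y i) 2 μ := fun i => by
    refine MemLp.of_bound (hm i).aestronglyMeasurable 1 (ae_of_all _ fun ω => ?_)
    rw [Real.norm_eq_abs, abs_of_nonneg (h0 i ω)]
    exact h1 i ω
  have hb0 : ∀ i, 0 ≤ b i := fun i => integral_nonneg (h0 i)
  have hb1 : ∀ i, b i ≤ 1 := fun i => by
    calc b i ≤ ∫ _ω, (1 : ℝ) ∂μ := integral_mono (hint i) (integrable_const _) (h1 i)
      _ = 1 := by simp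
  have hBm : Monotone B := by
    apply monotone_nat_of_le_succ
    intro n
    simp only [hBdef, Finset.sum_range_succ]
    linarith [hb0 n]
  have hvar : ∀ i, variance (Y i) μ ≤ b i := fun i => by
    refine (variance_le_expectation_sq (hm i).aestronglyMeasurable).trans ?_
    apply integral_mono_of_nonneg (ae_of_all _ fun ω => sq_nonneg _) (hint i) (ae_of_all _ fun ω => ?_)
    change (Y i ω) ^ 2 ≤ Y i ω
    nlinarith [h0 i ω, h1 i ω]
  -- the subsequence
  have hex : ∀ k : ℕ, ∃ N, (k : ℝ) ^ 2 ≤ B N := fun k =>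
    (hB.eventually_ge_atTop ((k : ℝ) ^ 2)).exists
  set Nk : ℕ → ℕ := fun k => Nat.find (hex k) with hNk
  have e1 : ∀ k : ℕ, (k : ℝ) ^ 2 ≤ B (Nk k) := fun k => Nat.find_spec (hex k)
  have e3 : ∀ k N : ℕ, (k : ℝ) ^ 2 ≤ B N → Nk k ≤ N := fun k N h => Nat.find_min' (hex k) h
  have e2 : ∀ k : ℕ, B (Nk k) ≤ (k : ℝ) ^ 2 + 1 := by
    intro k
    rcases Nat.eq_zero_or_pos (Nk k) with h | h
    · rw [h]
      simp only [hBdef, Finset.range_zero, Finset.sum_empty]
      positivity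
    · obtain ⟨M, hM⟩ : ∃ M, Nk k = M + 1 := ⟨Nk k - 1, by omega⟩
      have h4 : B M < (k : ℝ) ^ 2 := by
        by_contra hcon
        push Not at hcon
        have := e3 k M hcon
        omega
      rw [hM]
      simp only [hBdef, Finset.sum_range_succ]
      have : ∑ i ∈ Finset.range M, b i = B M := rfl
      rw [this]
      linarith [hb1 M]
  -- Chebyshev
  have hcheb : ∀ (ε : ℝ), 0 < ε → ∀ k : ℕ, 1 ≤ k →
      μ {ω | ε * B (Nk k) ≤ |(∑ i ∈ Finset.range (Nk k), Y i ω) - B (Nk k)|} ≤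
        ENNReal.ofReal (1 / ε ^ 2 * (1 / (k : ℝ) ^ 2)) := by
    intro ε hε k hk
    have hk1 : (1 : ℝ) ≤ k := by exact_mod_cast hk
    have hBpos : 0 < B (Nk k) := by nlinarith [e1 k]
    have hS : MemLp (∑ i ∈ Finset.range (Nk k), Y i) 2 μ := memLp_finsetSum' _ fun i _ => hL2 i
    have hmean : ∫ ω, (∑ i ∈ Finset.range (Nk k), Y i) ω ∂μ = B (Nk k) := by
      simp only [Finset.sum_apply]
      rw [integral_finsetSum _ fun i _ => hint i]
    have hV : variance (∑ i ∈ Finset.range (Nk k), Y i) μ ≤ B (Nk k) := by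
      rw [IndepFun.variance_sum (fun i _ => hL2 i) (fun i _ j _ hij => hind hij)]
      exact Finset.sum_le_sum fun i _ => hvar i
    have hc := meas_ge_le_variance_div_sq hS (mul_pos hε hBpos)
    rw [hmean] at hc
    simp only [Finset.sum_apply] at hc
    refine hc.trans (ENNReal.ofReal_le_ofReal ?_)
    rw [div_le_iff₀ (by positivity)]
    calc variance (∑ i ∈ Finset.range (Nk k), Y i) μ ≤ B (Nk k) := hV
      _ = 1 / ε ^ 2 * (1 / B (Nk k)) * (ε * B (Nk k)) ^ 2 := by field_simp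
      _ ≤ 1 / ε ^ 2 * (1 / (k : ℝ) ^ 2) * (ε * B (Nk k)) ^ 2 := by
          apply mul_le_mul_of_nonneg_right _ (by positivity)
          apply mul_le_mul_of_nonneg_left _ (by positivity)
          exact one_div_le_one_div_of_le (by positivity) (e1 k)
  have hae : ∀ m : ℕ, ∀ᵐ ω ∂μ, ∀ᶠ k in atTop,
      ω ∉ {ω | 1 / ((m : ℝ) + 1) * B (Nk (k + 1)) ≤ |(∑ i ∈ Finset.range (Nk (k + 1)), Y i ω) - B (Nk (k + 1))|} := by
    intro m
    apply ae_eventually_notMem
    have hε : (0 : ℝ) < 1 / ((m : ℝ) + 1) := by positivity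
    refine ne_top_of_le_ne_top ?_ (ENNReal.tsum_le_tsum fun k => hcheb _ hε (k + 1) (by omega))
    have hsum : Summable fun k : ℕ => 1 / (1 / ((m : ℝ) + 1)) ^ 2 * (1 / ((k + 1 : ℕ) : ℝ) ^ 2) := by
      apply Summable.mul_left
      exact (summable_nat_add_iff 1).2 (Real.summable_one_div_nat_pow.2 (by norm_num))
    rw [← ENNReal.ofReal_tsum_of_nonneg (fun k => by positivity) hsum]
    exact ENNReal.ofReal_ne_top
  filter_upwards [ae_all_iff.2 hae] with ω hω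
  refine interp (T := fun N => ∑ i ∈ Finset.range N, Y i ω) (B := B) ?_ hBm hB Nk e1 e2 e3 ?_
  · apply monotone_nat_of_le_succ
    intro n
    simp only [Finset.sum_range_succ]
    linarith [h0 n ω]
  · rw [← tendsto_add_atTop_iff_nat 1, Metric.tendsto_atTop]
    intro ε hε
    obtain ⟨m, hm'⟩ := exists_nat_one_div_lt hε
    obtain ⟨k₀, hk₀⟩ := eventually_atTop.1 (hω m)
    refine ⟨k₀, fun k hk => ?_⟩
    have h5 := hk₀ k hk
    rw [not_le] at h5
    have hk1 : (1 : ℝ) ≤ ((k + 1 : ℕ) : ℝ) := by push_cast; linarith [(Nat.cast_nonneg k : (0 : ℝ) ≤ k)]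
    have hBpos : 0 < B (Nk (k + 1)) := by nlinarith [e1 (k + 1)]
    rw [Real.dist_eq]
    have h6 : (∑ i ∈ Finset.range (Nk (k + 1)), Y i ω) / B (Nk (k + 1)) - 1 =
        ((∑ i ∈ Finset.range (Nk (k + 1)), Y i ω) - B (Nk (k + 1))) / B (Nk (k + 1)) := by
      rw [sub_div, div_self hBpos.ne']
    rw [h6, abs_div, abs_of_pos hBpos, div_lt_iff₀ hBpos]
    calc |(∑ i ∈ Finset.range (Nk (k + 1)), Y i ω) - B (Nk (k + 1))| < 1 / ((m : ℝ) + 1) * B (Nk (k + 1)) := h5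
      _ ≤ ε * B (Nk (k + 1)) := by gcongr

end Q239.CS
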