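import Pool.Agent.Q239.CS.Leb
import Pool.Agent.Q239.CS.Slln

set_option autoImplicit false

namespace Q239.CS

open MeasureTheory Filter Topology ProbabilityTheory

open scoped Classical in
theorem cnt_succ (K : Set ℕ) (N : ℕ) : (cnt K (N + 1) : ℝ) = cnt K N + (if N + 1 ∈ K then 1 else 0) := by
  rw [cnt_eq, cnt_eq]
  have : Finset.Icc 1 (N + 1) = insert (N + 1) (Finset.Icc 1 N) := by
    ext n
    rw [Finset.mem_insert, Finset.mem_Icc, Finset.mem_Icc]
    omega
  rw [this, Finset.filter_insert]
  split_ifs with h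
  · rw [Finset.card_insert_of_notMem (by simp)]
    push_cast
    ring
  · ring

theorem cnt_zero (K : Set ℕ) : cnt K 0 = 0 := by
  rw [cnt_eq]
  simp

open scoped Classical in
/-- Abel summation -/
theorem abel {K : Set ℕ} {δ : ℝ} (hK : Dn K δ) {p : ℕ → ℝ} (hanti : Antitone p) (hp : ∀ n, 0 ≤ p n)
    (hdiv : Tendsto (fun N : ℕ => ∑ i ∈ Finset.range N, p (i + 1)) atTop atTop) :
    Tendsto (fun N : ℕ => (∑ i ∈ Finset.range N, if i + 1 ∈ K then p (i + 1) else 0) /
      ∑ i ∈ Finset.range N, p (i + 1)) atTop (𝓝 δ) := by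
  set D : ℕ → ℝ := fun n => cnt K n - δ * n with hD
  have id1 : ∀ N : ℕ, (∑ i ∈ Finset.range N, if i + 1 ∈ K then p (i + 1) else 0)
      - δ * ∑ i ∈ Finset.range N, p (i + 1) = D N * p N + ∑ i ∈ Finset.range N, D i * (p i - p (i + 1)) := by
    intro N
    induction N with
    | zero =>
      simp only [hD, Finset.range_zero, Finset.sum_empty, cnt_zero]
      simp
    | succ N ih =>
      rw [Finset.sum_range_succ, Finset.sum_range_succ, Finset.sum_range_succ]
      have e : D (N + 1) = D N + ((if N + 1 ∈ K then 1 else 0) - δ) := by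
        simp only [hD]
        rw [cnt_succ]
        push_cast
        ring
      rw [e]
      have e2 : (if N + 1 ∈ K then p (N + 1) else 0) = (if N + 1 ∈ K then 1 else 0) * p (N + 1) := by
        split_ifs <;> ring
      rw [e2]
      linear_combination ih
  have id2 : ∀ N : ℕ, ∑ i ∈ Finset.range N, p (i + 1) = N * p N + ∑ i ∈ Finset.range N, (i : ℝ) * (p i - p (i + 1)) := by
    intro N
    induction N with
    | zero => simp
    | succ N ih =>
      rw [Finset.sum_range_succ, Finset.sum_range_succ, ih]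
      push_cast
      ring
  have id3 : ∀ N : ℕ, p 0 = p N + ∑ i ∈ Finset.range N, (p i - p (i + 1)) := by
    intro N
    induction N with
    | zero => simp
    | succ N ih =>
      rw [Finset.sum_range_succ]
      linarith
  have hbd : ∀ η : ℝ, 0 < η → ∃ C : ℝ, 0 ≤ C ∧ ∀ n : ℕ, |D n| ≤ η * n + C := by
    intro η hη
    have h1 : ∀ᶠ N : ℕ in atTop, |(cnt K N : ℝ) / N - δ| < η := by
      have := (Metric.tendsto_nhds.1 hK) η hη
      simpa [Real.dist_eq] using this
    obtain ⟨N₀, hN₀⟩ := eventually_atTop.1 h1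
    refine ⟨∑ n ∈ Finset.range (N₀ + 1), |D n|, Finset.sum_nonneg fun _ _ => abs_nonneg _, fun n => ?_⟩
    by_cases hn : n < N₀ + 1
    · have := Finset.single_le_sum (f := fun n => |D n|) (fun i _ => abs_nonneg _) (Finset.mem_range.2 hn)
      have h2 : 0 ≤ η * n := by positivity
      linarith
    · have hn1 : 1 ≤ n := by omega
      have hn0 : (0 : ℝ) < n := by exact_mod_cast hn1
      have h3 := hN₀ n (by omega)
      have h4 : D n = ((cnt K n : ℝ) / n - δ) * n := by
        simp only [hD]
        field_simp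
      have h5 : |D n| ≤ η * n := by
        rw [h4, abs_mul, abs_of_pos hn0]
        exact mul_le_mul_of_nonneg_right h3.le hn0.le
      have h6 : 0 ≤ ∑ n ∈ Finset.range (N₀ + 1), |D n| := Finset.sum_nonneg fun _ _ => abs_nonneg _
      linarith
  rw [Metric.tendsto_atTop]
  intro ε hε
  obtain ⟨C, hC0, hC⟩ := hbd (ε / 2) (by positivity)
  obtain ⟨N₁, hN₁⟩ := eventually_atTop.1 (hdiv.eventually_gt_atTop (2 * C * p 0 / ε))
  refine ⟨N₁, fun N hN => ?_⟩
  have hbig := hN₁ N hN
  set a : ℝ := ∑ i ∈ Finset.range N, p (i + 1) with ha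
  have ha0 : 0 < a := by
    refine lt_of_le_of_lt ?_ hbig
    have := hp 0
    positivity
  have hmain : |(∑ i ∈ Finset.range N, if i + 1 ∈ K then p (i + 1) else 0) - δ * a| ≤ ε / 2 * a + C * p 0 := by
    rw [ha, id1 N]
    calc |D N * p N + ∑ i ∈ Finset.range N, D i * (p i - p (i + 1))|
        ≤ |D N * p N| + |∑ i ∈ Finset.range N, D i * (p i - p (i + 1))| := abs_add_le _ _
      _ ≤ (ε / 2 * N + C) * p N + ∑ i ∈ Finset.range N, (ε / 2 * i + C) * (p i - p (i + 1)) := by
          apply add_le_add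
          · rw [abs_mul, abs_of_nonneg (hp N)]
            exact mul_le_mul_of_nonneg_right (hC N) (hp N)
          · refine (Finset.abs_sum_le_sum_abs _ _).trans (Finset.sum_le_sum fun i _ => ?_)
            have h7 : 0 ≤ p i - p (i + 1) := by linarith [hanti (Nat.le_succ i)]
            rw [abs_mul, abs_of_nonneg h7]
            exact mul_le_mul_of_nonneg_right (hC i) h7
      _ = ε / 2 * (N * p N + ∑ i ∈ Finset.range N, (i : ℝ) * (p i - p (i + 1)))
          + C * (p N + ∑ i ∈ Finset.range N, (p i - p (i + 1))) := by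
          rw [mul_add, mul_add, Finset.mul_sum, Finset.mul_sum]
          have : ∑ i ∈ Finset.range N, (ε / 2 * i + C) * (p i - p (i + 1)) =
              ∑ i ∈ Finset.range N, ε / 2 * ((i : ℝ) * (p i - p (i + 1))) +
                ∑ i ∈ Finset.range N, C * (p i - p (i + 1)) := by
            rw [← Finset.sum_add_distrib]
            exact Finset.sum_congr rfl fun i _ => by ring
          rw [this]
          ring
      _ = ε / 2 * ∑ i ∈ Finset.range N, p (i + 1) + C * p 0 := by rw [← id2 N, ← id3 N]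
  rw [Real.dist_eq]
  have e3 : (∑ i ∈ Finset.range N, if i + 1 ∈ K then p (i + 1) else 0) / a - δ =
      ((∑ i ∈ Finset.range N, if i + 1 ∈ K then p (i + 1) else 0) - δ * a) / a := by
    field_simp
  rw [e3, abs_div, abs_of_pos ha0, div_lt_iff₀ ha0]
  have h8 : C * p 0 < ε / 2 * a := by
    rw [div_lt_iff₀ hε] at hbig
    linarith
  linarith

variable {Ω : Type*} [MeasurableSpace Ω] {μ : Measure Ω}

/-- the number of `n` in `[1, N]` with `n ∈ K` and `ω ∈ E n` -/
noncomputable def hits (E : ℕ → Set Ω) (ω : Ω) (K : Set ℕ) (N : ℕ) : ℕ := cnt {n | ω ∈ E n ∧ n ∈ K} N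

omit [MeasurableSpace Ω] in
open scoped Classical in
theorem hits_eq_sum (E : ℕ → Set Ω) (ω : Ω) (K : Set ℕ) (N : ℕ) : (hits E ω K N : ℝ) =
    ∑ i ∈ Finset.range N, if i + 1 ∈ K then (E (i + 1)).indicator (fun _ => (1 : ℝ)) ω else 0 := by
  induction N with
  | zero => simp [hits, cnt_zero]
  | succ N ih =>
    rw [Finset.sum_range_succ, ← ih]
    unfold hits
    rw [cnt_succ]
    congr 1
    by_cases h1 : N + 1 ∈ K <;> by_cases h2 : ω ∈ E (N + 1) <;> simp [h1, h2]

/-- **Polling by a random set.** -/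
theorem poll [IsProbabilityMeasure μ] {E : ℕ → Set Ω} (hm : ∀ n, MeasurableSet (E n)) (hind : iIndepSet E μ)
    (hanti : Antitone fun n => μ.real (E n)) (hdiv : ¬ Summable fun n => μ.real (E n)) {K : Set ℕ} {δ : ℝ}
    (hK : Dn K δ) (hδ : 0 < δ) :
    ∀ᵐ ω ∂μ, Tendsto (fun N : ℕ => (hits E ω K N : ℝ) / ∑ i ∈ Finset.range N, μ.real (E (i + 1))) atTop (𝓝 δ) := by
  classical
  set p : ℕ → ℝ := fun n => μ.real (E n) with hp
  have hp0 : ∀ n, 0 ≤ p n := fun n => measureReal_nonneg
  have hdiv' : Tendsto (fun N : ℕ => ∑ i ∈ Finset.range N, p (i + 1)) atTop atTop := by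
    rw [← not_summable_iff_tendsto_nat_atTop_of_nonneg (fun n => hp0 (n + 1))]
    rwa [summable_nat_add_iff 1]
  have hab := abel hK hanti hp0 hdiv'
  set Y : ℕ → Ω → ℝ := fun i ω => if i + 1 ∈ K then (E (i + 1)).indicator (fun _ => (1 : ℝ)) ω else 0 with hY
  have hmean : ∀ i, ∫ ω, Y i ω ∂μ = if i + 1 ∈ K then p (i + 1) else 0 := by
    intro i
    by_cases h : i + 1 ∈ K
    · simp only [hY, h, if_true]
      rw [integral_indicator_const _ (hm _)]
      simp [hp]
    · simp [hY, h]
  have hB : Tendsto (fun N => ∑ i ∈ Finset.range N, ∫ ω, Y i ω ∂μ) atTop atTop := by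
    have h1 : (fun N => ∑ i ∈ Finset.range N, ∫ ω, Y i ω ∂μ) =ᶠ[atTop]
        fun N => ((∑ i ∈ Finset.range N, if i + 1 ∈ K then p (i + 1) else 0) /
          ∑ i ∈ Finset.range N, p (i + 1)) * ∑ i ∈ Finset.range N, p (i + 1) := by
      filter_upwards [hdiv'.eventually_gt_atTop 0] with N hN
      rw [div_mul_cancel₀ _ hN.ne']
      exact Finset.sum_congr rfl fun i _ => hmean i
    rw [tendsto_congr' h1]
    exact hab.pos_mul_atTop hδ hdiv'
  have hs := slln (μ := μ) (Y := Y) (fun i => by
      by_cases h : i + 1 ∈ K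
      · simp only [hY, h, if_true]
        exact measurable_const.indicator (hm _)
      · simp only [hY, h, if_false]
        exact measurable_const)
    (fun i ω => by
      simp only [hY]
      split_ifs
      · exact Set.indicator_nonneg (fun _ _ => zero_le_one) _
      · exact le_rfl)
    (fun i ω => by
      simp only [hY]
      split_ifs
      · exact Set.indicator_le_self' (fun _ _ => zero_le_one) _
      · exact zero_le_one)
    (by
      intro i j hij
      by_cases h : i + 1 ∈ K
      · by_cases h' : j + 1 ∈ K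
        · have h2 := (iIndepSet.iIndepFun_indicator (β := ℝ) (m := borel ℝ) hind).indepFun
            (show i + 1 ≠ j + 1 by omega)
          simpa only [hY, h, h', if_true] using h2
        · simp only [hY, h', if_false]
          exact indepFun_const_right _ _
      · simp only [hY, h, if_false]
        exact indepFun_const_left _ _) hB
  filter_upwards [hs] with ω hω
  have h3 := hω.mul hab
  rw [one_mul] at h3
  refine h3.congr' ?_
  filter_upwards [hB.eventually_gt_atTop 0] with N hN
  have e1 : ∑ i ∈ Finset.range N, ∫ ω, Y i ω ∂μ = ∑ i ∈ Finset.range N, if i + 1 ∈ K then p (i + 1) else 0 :=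
    Finset.sum_congr rfl fun i _ => hmean i
  rw [hits_eq_sum]
  rw [e1] at hN ⊢
  rw [div_mul_div_cancel₀ hN.ne']

end Q239.CS
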