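import Pool.Agent.H499R2.NDClass2
import Pool.Agent.Q239.CS.Leb2
import Pool.Agent.Q239.CS.Rnd

set_option autoImplicit false

namespace Q239.CS

open MeasureTheory Filter Topology ProbabilityTheory

/-- The Collatz map on the integers. -/
def C (x : ℤ) : ℤ := if x % 2 = 0 then x / 2 else 3 * x + 1

/-- The trajectories of `a` and `b` merge. -/
def Merge (a b : ℤ) : Prop := ∃ i j : ℕ, C^[i] a = C^[j] b

/-- Among the integers of sign `s` the set `S` has natural density `δ`. -/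
def HasDensity (s : ℤ) (S : Set ℤ) (δ : ℝ) : Prop :=
  Tendsto (fun N : ℕ => ({n : ℤ | 0 < s * n ∧ s * n ≤ N ∧ n ∈ S}.ncard : ℝ) / N) atTop (𝓝 δ)

/-- least element of its class -/
def IsRep (s a : ℤ) : Prop := 0 < s * a ∧ ∀ b : ℤ, 0 < s * b → Merge a b → s * a ≤ s * b

theorem structure_thm (s : ℤ) (hs : s = 1 ∨ s = -1) : ∃ δ : ℤ → ℝ,
    (∀ a : ℤ, 0 < s * a → 0 < δ a ∧ HasDensity s {n | Merge n a} (δ a)) ∧
    (∀ S : Set ℤ, (∀ x : ℤ, x ∈ S ↔ C x ∈ S) →
      HasDensity s S (∑' a : {a : ℤ // IsRep s a ∧ a ∈ S}, δ a)) ∧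
    HasSum (fun a : {a : ℤ // IsRep s a} => δ a) 1 :=
  Pool.Agent.H499R2.ND.structure_full hs

theorem ss {s : ℤ} (hs : s = 1 ∨ s = -1) (x : ℤ) : s * (s * x) = x := by
  rcases hs with rfl | rfl <;> ring

theorem side {s : ℤ} (hs : s = 1 ∨ s = -1) (S : Set ℤ) (N : ℕ) :
    {n : ℤ | 0 < s * n ∧ s * n ≤ N ∧ n ∈ S}.ncard = cnt {n : ℕ | s * (n : ℤ) ∈ S} N := by
  unfold cnt
  have hinj : Function.Injective (fun n : ℕ => s * (n : ℤ)) := by
    intro a b h
    have h' : s * (a : ℤ) = s * (b : ℤ) := h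
    rcases hs with rfl | rfl <;> omega
  rw [← Set.ncard_image_of_injective _ hinj]
  congr 1
  ext n
  simp only [Set.mem_ofPred_eq, Set.mem_image]
  constructor
  · rintro ⟨h1, h2, h3⟩
    refine ⟨(s * n).toNat, ⟨by omega, by omega, ?_⟩, ?_⟩
    · rw [Int.toNat_of_nonneg h1.le, ss hs]
      exact h3
    · rw [Int.toNat_of_nonneg h1.le, ss hs]
  · rintro ⟨m, ⟨h1, h2, h3⟩, rfl⟩
    rw [ss hs]
    exact ⟨by omega, by omega, h3⟩

theorem Dn_of {s : ℤ} (hs : s = 1 ∨ s = -1) {S : Set ℤ} {δ : ℝ} (h : HasDensity s S δ) :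
    Dn {n : ℕ | s * (n : ℤ) ∈ S} δ := by
  unfold HasDensity at h
  unfold Dn
  refine h.congr fun N => ?_
  rw [side hs]

/-! ### Almost every sparse sequence -/

theorem sparse {A : ℝ} (hA : 0 ≤ A) (c d : ℕ → ℝ) (hc : ∀ n, 0 < c n) (hd : ∀ n, 1 ≤ d n)
    (hT : ∀ x : ℝ, A < x → Tendsto (fun n => c n * x ^ d n) atTop atTop) :
    ∀ᵐ x : ℝ, A < x → ∀ s : ℤ, (s = 1 ∨ s = -1) → ∀ m : ℤ, 0 < s * m →
      ∃ᶠ n in atTop, Merge (s * ⌊c n * x ^ d n⌋) m := by
  have h1 : ∀ s : ℤ, ∀ m : ℤ, ∀ᵐ x : ℝ, (s = 1 ∨ s = -1) → 0 < s * m → A < x →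
      ∃ᶠ n in atTop, Merge (s * ⌊c n * x ^ d n⌋) m := by
    intro s m
    by_cases hs : s = 1 ∨ s = -1
    · by_cases hm : 0 < s * m
      · obtain ⟨δ, hδ, -, -⟩ := structure_thm s hs
        obtain ⟨hδ0, hδd⟩ := hδ m hm
        filter_upwards [ae_frequently (Dn_of hs hδd) hδ0 hA c d hc hd hT] with x hx _ _ hxA
        refine (hx hxA).mono fun n hn => ?_
        have h0 : 0 ≤ c n * x ^ d n := by
          have := hc n
          have hx0 : 0 < x := lt_of_le_of_lt hA hxA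
          positivity
        have e : ((⌊c n * x ^ d n⌋₊ : ℕ) : ℤ) = ⌊c n * x ^ d n⌋ := Int.natCast_floor_eq_floor h0
        have hn' : Merge (s * ((⌊c n * x ^ d n⌋₊ : ℕ) : ℤ)) m := hn
        rw [e] at hn'
        exact hn'
      · exact Eventually.of_forall fun x _ h => absurd h hm
    · exact Eventually.of_forall fun x h => absurd h hs
  have h2 : ∀ᵐ x : ℝ, ∀ s : ℤ, ∀ m : ℤ, (s = 1 ∨ s = -1) → 0 < s * m → A < x →
      ∃ᶠ n in atTop, Merge (s * ⌊c n * x ^ d n⌋) m := by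
    rw [ae_all_iff]
    intro s
    rw [ae_all_iff]
    intro m
    exact h1 s m
  filter_upwards [h2] with x hx hxA s hs m hm
  exact hx s m hs hm hxA

/-! ### Random sets -/

theorem iter_mem {S : Set ℤ} (hS : ∀ x : ℤ, x ∈ S ↔ C x ∈ S) (i : ℕ) (x : ℤ) : x ∈ S ↔ C^[i] x ∈ S := by
  induction i generalizing x with
  | zero => rfl
  | succ i ih => rw [Function.iterate_succ_apply, ← ih, ← hS]

theorem merge_mem {S : Set ℤ} (hS : ∀ x : ℤ, x ∈ S ↔ C x ∈ S) {a b : ℤ} (h : Merge a b) : a ∈ S ↔ b ∈ S := by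
  obtain ⟨i, j, hij⟩ := h
  rw [iter_mem hS i a, hij, ← iter_mem hS j b]

theorem merge_symm {a b : ℤ} (h : Merge a b) : Merge b a := by
  obtain ⟨i, j, hij⟩ := h
  exact ⟨j, i, hij.symm⟩

theorem merge_trans {a b c : ℤ} (h : Merge a b) (h' : Merge b c) : Merge a c := by
  obtain ⟨i, j, hij⟩ := h
  obtain ⟨k, l, hkl⟩ := h'
  refine ⟨k + i, j + l, ?_⟩
  rw [Function.iterate_add_apply, hij, ← Function.iterate_add_apply, add_comm k j, Function.iterate_add_apply, hkl,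
    ← Function.iterate_add_apply]

theorem merge_class_inv (a : ℤ) (x : ℤ) : x ∈ {n : ℤ | Merge n a} ↔ C x ∈ {n : ℤ | Merge n a} := by
  constructor
  · rintro ⟨i, j, hij⟩
    refine ⟨i, j + 1, ?_⟩
    rw [← Function.iterate_succ_apply, Function.iterate_succ_apply', hij, Function.iterate_succ_apply']
  · rintro ⟨i, j, hij⟩
    refine ⟨i + 1, j, ?_⟩
    rw [Function.iterate_succ_apply]
    exact hij

variable {Ω : Type*} [MeasurableSpace Ω] {μ : Measure Ω}

omit [MeasurableSpace Ω] in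
theorem hits_add (E : ℕ → Set Ω) (ω : Ω) {K L : Set ℕ} (hKL : Disjoint K L) (N : ℕ) :
    hits E ω (K ∪ L) N = hits E ω K N + hits E ω L N := by
  classical
  unfold hits
  rw [cnt_eq, cnt_eq, cnt_eq, ← Finset.card_union_of_disjoint]
  · congr 1
    ext n
    simp only [Finset.mem_filter, Finset.mem_union, Set.mem_ofPred_eq, Set.mem_union]
    tauto
  · rw [Finset.disjoint_left]
    intro n h1 h2
    simp only [Finset.mem_filter, Set.mem_ofPred_eq] at h1 h2
    exact (Set.disjoint_left.1 hKL) h1.2.2 h2.2.2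

omit [MeasurableSpace Ω] in
theorem hits_mono (E : ℕ → Set Ω) (ω : Ω) {K L : Set ℕ} (hKL : K ⊆ L) (N : ℕ) :
    hits E ω K N ≤ hits E ω L N := by
  classical
  unfold hits
  rw [cnt_eq, cnt_eq]
  apply Finset.card_le_card
  intro n h
  simp only [Finset.mem_filter, Set.mem_ofPred_eq] at h ⊢
  exact ⟨h.1, h.2.1, hKL h.2.2⟩

omit [MeasurableSpace Ω] in
theorem hits_biUnion (E : ℕ → Set Ω) (ω : Ω) {ι : Type*} (F : Finset ι) (K : ι → Set ℕ)
    (h : ∀ i ∈ F, ∀ j ∈ F, i ≠ j → Disjoint (K i) (K j)) (N : ℕ) :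
    hits E ω (⋃ i ∈ F, K i) N = ∑ i ∈ F, hits E ω (K i) N := by
  classical
  induction F using Finset.induction_on with
  | empty =>
    simp only [Finset.notMem_empty, Set.iUnion_of_empty, Set.iUnion_empty, Finset.sum_empty]
    unfold hits
    rw [cnt_eq]
    simp
  | insert a F ha ih =>
    rw [Finset.sum_insert ha, Finset.set_biUnion_insert, hits_add, ih]
    · intro i hi j hj hij
      exact h i (Finset.mem_insert_of_mem hi) j (Finset.mem_insert_of_mem hj) hij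
    · rw [Set.disjoint_iUnion₂_right]
      intro i hi
      exact h a (Finset.mem_insert_self _ _) i (Finset.mem_insert_of_mem hi) (fun e => ha (e ▸ hi))

theorem card_bd (k : ℕ) {ε T : ℝ} (hε : 0 < ε) (hT0 : 0 ≤ T) :
    (k : ℝ) * (ε / (4 * (k + 1)) * T) ≤ ε / 4 * T := by
  have h1 : (k : ℝ) * (ε / (4 * (k + 1)) * T) = (k / (k + 1)) * (ε / 4 * T) := by
    field_simp
  rw [h1]
  have h2 : (k : ℝ) / (k + 1) ≤ 1 := by
    rw [div_le_one (by positivity)]
    linarith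
  have h3 : 0 ≤ ε / 4 * T := by positivity
  nlinarith

/-- **Uniform polling.** -/
theorem poll_uniform [IsProbabilityMeasure μ] {E : ℕ → Set Ω} (hm : ∀ n, MeasurableSet (E n))
    (hind : iIndepSet E μ) (hanti : Antitone fun n => μ.real (E n)) (hdiv : ¬ Summable fun n => μ.real (E n))
    {s : ℤ} (hs : s = 1 ∨ s = -1) :
    ∀ᵐ ω ∂μ, Tendsto (fun N => hits E ω Set.univ N) atTop atTop ∧
      ∀ ε : ℝ, 0 < ε → ∃ N₀ : ℕ, ∀ N : ℕ, N₀ ≤ N → ∀ S : Set ℤ, (∀ x : ℤ, x ∈ S ↔ C x ∈ S) → ∀ δ : ℝ,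
        HasDensity s S δ → |(hits E ω {n : ℕ | s * (n : ℤ) ∈ S} N : ℝ) - δ * hits E ω Set.univ N|
          ≤ ε * hits E ω Set.univ N := by
  classical
  obtain ⟨δ, hδ, hδS, hδ1⟩ := structure_thm s hs
  set W : ℕ → ℝ := fun N => ∑ i ∈ Finset.range N, μ.real (E (i + 1)) with hW
  have hWt : Tendsto W atTop atTop := by
    rw [hW, ← not_summable_iff_tendsto_nat_atTop_of_nonneg (fun n => measureReal_nonneg)]
    intro hcon
    exact hdiv ((summable_nat_add_iff (f := fun n => μ.real (E n)) 1).1 hcon)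
  have huniv : Dn Set.univ 1 := by
    unfold Dn
    have : (fun N : ℕ => (cnt Set.univ N : ℝ) / N) =ᶠ[atTop] fun _ => 1 := by
      filter_upwards [eventually_ge_atTop 1] with N hN
      have h0 : (0 : ℝ) < N := by exact_mod_cast hN
      rw [cnt_eq]
      simp only [Set.mem_univ, Finset.filter_true, Nat.card_Icc, Nat.add_sub_cancel]
      exact div_self h0.ne'
    rw [tendsto_congr' this]
    exact tendsto_const_nhds
  have hall := poll hm hind hanti hdiv huniv one_pos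
  have hcl : ∀ a : ℤ, ∀ᵐ ω ∂μ, 0 < s * a →
      Tendsto (fun N : ℕ => (hits E ω {n : ℕ | Merge (s * (n : ℤ)) a} N : ℝ) / W N) atTop (𝓝 (δ a)) := by
    intro a
    by_cases ha : 0 < s * a
    · filter_upwards [poll hm hind hanti hdiv (Dn_of hs (hδ a ha).2) (hδ a ha).1] with ω hω _
      exact hω
    · exact Eventually.of_forall fun ω h => absurd h ha
  filter_upwards [hall, ae_all_iff.2 hcl] with ω hω1 hω2
  have hT : Tendsto (fun N => (hits E ω Set.univ N : ℝ)) atTop atTop := by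
    have h1 : (fun N => (hits E ω Set.univ N : ℝ)) =ᶠ[atTop] fun N => (hits E ω Set.univ N : ℝ) / W N * W N := by
      filter_upwards [hWt.eventually_gt_atTop 0] with N hN
      rw [div_mul_cancel₀ _ hN.ne']
    rw [tendsto_congr' h1]
    exact hω1.pos_mul_atTop one_pos hWt
  refine ⟨tendsto_natCast_atTop_iff.1 hT, ?_⟩
  -- frequencies of the classes
  have hfreq : ∀ a : ℤ, 0 < s * a →
      Tendsto (fun N : ℕ => (hits E ω {n : ℕ | Merge (s * (n : ℤ)) a} N : ℝ) / hits E ω Set.univ N) atTop (𝓝 (δ a)) := by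
    intro a ha
    have h1 := (hω2 a ha).div hω1 one_ne_zero
    rw [div_one] at h1
    refine h1.congr' ?_
    filter_upwards [hWt.eventually_gt_atTop 0] with N hN
    exact div_div_div_cancel_right₀ hN.ne' _ _
  intro ε hε
  obtain ⟨F, hF⟩ : ∃ F : Finset {a : ℤ // IsRep s a}, 1 - ε / 4 < ∑ a ∈ F, δ a := by
    have := (hδ1.eventually (lt_mem_nhds (show 1 - ε / 4 < 1 by linarith))).exists
    exact this
  have hev : ∀ a ∈ F, ∀ᶠ N : ℕ in atTop,
      |(hits E ω {n : ℕ | Merge (s * (n : ℤ)) a.1} N : ℝ) - δ a.1 * hits E ω Set.univ N|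
        ≤ ε / (4 * (F.card + 1)) * hits E ω Set.univ N := by
    intro a _
    have hε' : 0 < ε / (4 * ((F.card : ℝ) + 1)) := by positivity
    filter_upwards [(Metric.tendsto_nhds.1 (hfreq a.1 a.2.1)) _ hε', hT.eventually_gt_atTop 0] with N hN hN0
    rw [Real.dist_eq] at hN
    have e : (hits E ω {n : ℕ | Merge (s * (n : ℤ)) a.1} N : ℝ) - δ a.1 * hits E ω Set.univ N =
        ((hits E ω {n : ℕ | Merge (s * (n : ℤ)) a.1} N : ℝ) / hits E ω Set.univ N - δ a.1) * hits E ω Set.univ N := by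
      field_simp
    rw [e, abs_mul, abs_of_pos hN0]
    exact mul_le_mul_of_nonneg_right hN.le hN0.le
  obtain ⟨N₀, hN₀⟩ := eventually_atTop.1 ((Finset.eventually_all F).2 hev)
  refine ⟨N₀, fun N hN S hS δS hδSd => ?_⟩
  have hNF := hN₀ N hN
  set T : ℝ := (hits E ω Set.univ N : ℝ) with hTdef
  have hT0 : 0 ≤ T := Nat.cast_nonneg _
  clear_value T
  set K : {a : ℤ // IsRep s a} → Set ℕ := fun a => {n : ℕ | 1 ≤ n ∧ Merge (s * (n : ℤ)) a.1} with hK
  have hKh : ∀ a, hits E ω (K a) N = hits E ω {n : ℕ | Merge (s * (n : ℤ)) a.1} N := by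
    intro a
    unfold hits
    rw [cnt_eq, cnt_eq]
    congr 1
    ext n
    simp only [Finset.mem_filter, Finset.mem_Icc, Set.mem_ofPred_eq, hK]
    tauto
  have hKdisj : ∀ a b : {a : ℤ // IsRep s a}, a ≠ b → Disjoint (K a) (K b) := by
    intro a b hab
    rw [Set.disjoint_left]
    rintro n ⟨_, h1⟩ ⟨_, h2⟩
    apply hab
    have h3 : Merge a.1 b.1 := merge_trans (merge_symm h1) h2
    have e1 := a.2.2 b.1 b.2.1 h3
    have e2 := b.2.2 a.1 a.2.1 (merge_symm h3)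
    apply Subtype.ext
    rcases hs with rfl | rfl <;> omega
  -- split F according to S
  set F₁ := F.filter fun a => a.1 ∈ S with hF₁
  have hsub1 : (⋃ a ∈ F₁, K a) ⊆ {n : ℕ | s * (n : ℤ) ∈ S} := by
    intro n hn
    simp only [Set.mem_iUnion] at hn
    obtain ⟨a, ha, hn⟩ := hn
    rw [hF₁, Finset.mem_filter] at ha
    exact (merge_mem hS hn.2).2 ha.2
  have hlow : (∑ a ∈ F₁, (hits E ω (K a) N : ℝ)) ≤ hits E ω {n : ℕ | s * (n : ℤ) ∈ S} N := by
    have h1 := hits_mono E ω hsub1 N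
    rw [hits_biUnion E ω F₁ K (fun i _ j _ hij => hKdisj i j hij)] at h1
    exact_mod_cast h1
  have hup : (hits E ω {n : ℕ | s * (n : ℤ) ∈ S} N : ℝ) + ∑ a ∈ F.filter (fun a => a.1 ∉ S), (hits E ω (K a) N : ℝ)
      ≤ T := by
    have hd : Disjoint {n : ℕ | s * (n : ℤ) ∈ S} (⋃ a ∈ F.filter (fun a => a.1 ∉ S), K a) := by
      rw [Set.disjoint_left]
      intro n hn hn'
      simp only [Set.mem_iUnion] at hn'
      obtain ⟨a, ha, hn'⟩ := hn'
      rw [Finset.mem_filter] at ha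
      exact ha.2 ((merge_mem hS hn'.2).1 hn)
    have h1 := hits_mono E ω (Set.subset_univ ({n : ℕ | s * (n : ℤ) ∈ S} ∪ ⋃ a ∈ F.filter (fun a => a.1 ∉ S), K a)) N
    rw [hits_add E ω hd, hits_biUnion E ω _ K (fun i _ j _ hij => hKdisj i j hij)] at h1
    rw [hTdef]
    exact_mod_cast h1
  -- the density of S
  have hδSeq : δS = ∑' a : {a : ℤ // IsRep s a ∧ a ∈ S}, δ a := tendsto_nhds_unique hδSd (hδS S hS)
  have hnn : ∀ a : {a : ℤ // IsRep s a}, 0 ≤ δ a := fun a => (hδ a.1 a.2.1).1.le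
  have hsumm : Summable fun a : {a : ℤ // IsRep s a} => δ a := hδ1.summable
  set φ : {a : ℤ // IsRep s a} → ℝ := fun a => if a.1 ∈ S then δ a else 0 with hφ
  have hφs : Summable φ := by
    refine Summable.of_nonneg_of_le (fun a => ?_) (fun a => ?_) hsumm
    · simp only [hφ]
      split_ifs
      · exact hnn a
      · exact le_rfl
    · simp only [hφ]
      split_ifs
      · exact le_rfl
      · exact hnn a
  have hδφ : δS = ∑' a, φ a := by
    rw [hδSeq]
    have h1 : ∑' a, φ a = ∑' a : {a : {a : ℤ // IsRep s a} // a.1 ∈ S}, δ a.1 := by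
      rw [← tsum_subtype_eq_of_support_subset (f := φ) (s := {a : {a : ℤ // IsRep s a} | a.1 ∈ S})]
      · apply tsum_congr
        intro a
        exact if_pos a.2
      · intro a ha
        by_contra hcon
        apply ha
        simp only [hφ]
        exact if_neg hcon
    rw [h1]
    exact (Equiv.tsum_eq (Equiv.subtypeSubtypeEquivSubtypeInter (fun a : ℤ => IsRep s a) (fun a => a ∈ S))
      (fun a => δ a.1)).symm
  have hφF : ∑ a ∈ F, φ a = ∑ a ∈ F₁, δ a := by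
    rw [hF₁, Finset.sum_filter]
  have hδlow : ∑ a ∈ F₁, δ a ≤ δS := by
    rw [hδφ, ← hφF]
    exact hφs.sum_le_tsum F fun a _ => by
      simp only [hφ]
      split_ifs
      · exact hnn a
      · exact le_rfl
  have hδup : δS ≤ ∑ a ∈ F₁, δ a + ε / 4 := by
    have h1 : ∑' a, φ a - ∑ a ∈ F, φ a ≤ ∑' a : {a : ℤ // IsRep s a}, δ a - ∑ a ∈ F, δ a := by
      rw [← hφs.sum_add_tsum_compl (s := F), ← hsumm.sum_add_tsum_compl (s := F)]
      have h2 : ∑' a : ↥((F : Set {a : ℤ // IsRep s a})ᶜ), φ a ≤ ∑' a : ↥((F : Set {a : ℤ // IsRep s a})ᶜ), δ a := by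
        refine (hφs.subtype _).tsum_le_tsum (fun a => ?_) (hsumm.subtype _)
        simp only [hφ]
        split_ifs
        · exact le_rfl
        · exact hnn a
      linarith
    rw [hδ1.tsum_eq, ← hδφ, hφF] at h1
    linarith
  -- the estimate
  have hcardF : (F.card : ℝ) * (ε / (4 * (F.card + 1)) * T) ≤ ε / 4 * T := card_bd F.card hε hT0
  have hsumbd : ∀ G : Finset {a : ℤ // IsRep s a}, G ⊆ F →
      |(∑ a ∈ G, (hits E ω (K a) N : ℝ)) - (∑ a ∈ G, δ a) * T| ≤ ε / 4 * T := by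
    intro G hG
    calc |(∑ a ∈ G, (hits E ω (K a) N : ℝ)) - (∑ a ∈ G, δ a) * T|
        = |∑ a ∈ G, ((hits E ω (K a) N : ℝ) - δ a * T)| := by
          rw [Finset.sum_sub_distrib, Finset.sum_mul]
      _ ≤ ∑ a ∈ G, |(hits E ω (K a) N : ℝ) - δ a * T| := Finset.abs_sum_le_sum_abs _ _
      _ ≤ ∑ _a ∈ G, ε / (4 * (F.card + 1)) * T := by
          apply Finset.sum_le_sum
          intro a ha
          rw [hKh a]
          exact hNF a (hG ha)
      _ ≤ ∑ _a ∈ F, ε / (4 * (F.card + 1)) * T := by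
          apply Finset.sum_le_sum_of_subset_of_nonneg hG
          intro _ _ _
          exact mul_nonneg (div_nonneg hε.le (mul_nonneg (by norm_num1) (add_nonneg (Nat.cast_nonneg _) zero_le_one))) hT0
      _ = F.card * (ε / (4 * (F.card + 1)) * T) := by rw [Finset.sum_const, nsmul_eq_mul]
      _ ≤ ε / 4 * T := hcardF
  have hb1 := hsumbd F₁ (Finset.filter_subset _ _)
  have hb2 := hsumbd (F.filter fun a => a.1 ∉ S) (Finset.filter_subset _ _)
  have hsplit : ∑ a ∈ F, δ a = ∑ a ∈ F₁, δ a + ∑ a ∈ F.filter (fun a => a.1 ∉ S), δ a := by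
    rw [hF₁, Finset.sum_filter_add_sum_filter_not]
  rw [abs_le] at hb1 hb2 ⊢
  constructor
  · nlinarith [hb1.1, hlow, hδup, hT0]
  · have h5 : (∑ a ∈ F.filter (fun a => a.1 ∉ S), δ a) ≥ 1 - ε / 4 - ∑ a ∈ F₁, δ a := by linarith
    nlinarith [hb2.1, hup, hδlow, hT0, mul_le_mul_of_nonneg_right h5 hT0, mul_le_mul_of_nonneg_right hδlow hT0]

end Q239.CS
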